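import Pool.Agent.H53.GM.Targets2

/-!
# Row RLI: occurring types occur at injective tuples
-/

set_option autoImplicit false

namespace Pool.Agent.H91.GM

open Pool.Agent.H68.BP Pool.Agent.H58.SF Pool.Agent.H53.GC Pool.Agent.H53.GR Pool.Agent.H53.GM
open Classical

theorem pf_RLI (hBLW : Pool.Agent.H53.GM.T_BLW) : Pool.Agent.H53.GM.T_RLI := by
  intro τ N F J _ t ht
  obtain ⟨W, hW, M, a, h1, h2⟩ := ht
  rcases isEmpty_or_nonempty J with hJ | hJ
  · exact ⟨W, hW, M, a, fun i => (hJ.false i).elim, h1, h2⟩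
  · obtain ⟨h3, h4⟩ := hBLW τ N F W J M hJ
    refine ⟨W × J, inferInstance, blw M J, fun j => (a j, j), fun i j hij => ?_, h3 h1, ?_⟩
    · exact (Prod.ext_iff.1 hij).2
    · rw [h4 J (fun j => (a j, j))]
      exact h2

end Pool.Agent.H91.GM
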